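import Pool.Agent.K7.H42.SD.Defs

/-! Project SD, job SOUND: every scan gives a dominating set. -/

set_option autoImplicit false

namespace Pool.Agent.K7.H64.SD

open Pool.Agent.K7.H42.SD

/-- the state of the proof: the set of the vertices that have been paid -/
def Inv (n : ℕ) (adj : ℕ → ℕ → Prop) (lo hi : ℕ) (h : Reg) (c : ℕ) : Prop :=
  hi < n ∧ ∃ D : Finset ℕ, D ⊆ Finset.range n ∧ D.card ≤ c ∧ (∀ x < n, h.mem x → x ∈ D) ∧
    ∀ v < n, (v < lo ∨ hi < v) → v ∈ D ∨ ∃ d ∈ D, adj d v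

/-- the row `r` is paid or dominated -/
lemma pay {n : ℕ} {adj : ℕ → ℕ → Prop} {h : Reg} {D : Finset ℕ} (hD : D ⊆ Finset.range n)
    (hh : ∀ x < n, h.mem x → x ∈ D) {r : ℕ} (hr : r < n) :
    ∃ D' : Finset ℕ, D ⊆ D' ∧ D' ⊆ Finset.range n ∧ D'.card ≤ D.card + und n adj h r ∧
      (r ∈ D' ∨ ∃ d ∈ D', adj d r) := by
  classical
  by_cases hd : Domd n adj h r
  · refine ⟨D, subset_rfl, hD, Nat.le_add_right _ _, ?_⟩
    obtain ⟨x, hx, hm, rfl | ha⟩ := hd
    · exact Or.inl (hh x hx hm)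
    · exact Or.inr ⟨x, hh x hx hm, ha⟩
  · refine ⟨insert r D, Finset.subset_insert _ _, ?_, ?_, Or.inl (Finset.mem_insert_self _ _)⟩
    · exact Finset.insert_subset (Finset.mem_range.2 hr) hD
    · have h1 : und n adj h r = 1 := by
        unfold und
        rw [if_neg hd]
      rw [h1]
      exact Finset.card_insert_le _ _

/-- the new registers are paid -/
lemma enter {n : ℕ} {h h' : Reg} {D : Finset ℕ} (hD : D ⊆ Finset.range n)
    (hh : ∀ x < n, h.mem x → x ∈ D) :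
    ∃ D' : Finset ℕ, D ⊆ D' ∧ D' ⊆ Finset.range n ∧ D'.card ≤ D.card + newc n h h' ∧
      ∀ x < n, h'.mem x → x ∈ D' := by
  classical
  refine ⟨D ∪ (Finset.range n).filter (fun x => h'.mem x ∧ ¬ h.mem x),
    Finset.subset_union_left, ?_, Finset.card_union_le _ _, ?_⟩
  · exact Finset.union_subset hD (Finset.filter_subset _ _)
  · intro x hx hm
    rw [Finset.mem_union, Finset.mem_filter]
    by_cases h1 : h.mem x
    · exact Or.inl (hh x hx h1)
    · exact Or.inr ⟨Finset.mem_range.2 hx, hm, h1⟩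

lemma dom_mono {adj : ℕ → ℕ → Prop} {D D' : Finset ℕ} (h : D ⊆ D') {v : ℕ}
    (hv : v ∈ D ∨ ∃ d ∈ D, adj d v) : v ∈ D' ∨ ∃ d ∈ D', adj d v := by
  rcases hv with hv | ⟨d, hd, ha⟩
  · exact Or.inl (h hv)
  · exact Or.inr ⟨d, h hd, ha⟩

lemma inv {n : ℕ} (hn : 0 < n) {adj : ℕ → ℕ → Prop} {lo hi : ℕ} {h : Reg} {c : ℕ}
    (hR : Reach n adj lo hi h c) : Inv n adj lo hi h c := by
  induction hR with
  | start h =>
    refine ⟨by omega, ?_⟩
    obtain ⟨D, -, h2, h3, h4⟩ := enter (n := n) (h := emp n) (h' := h) (D := ∅)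
      (Finset.empty_subset _) (fun x hx hm => by
        exfalso
        rcases hm with hm | hm | hm | hm <;> exact absurd hm (Nat.ne_of_lt hx))
    refine ⟨D, h2, ?_, h4, fun v hv hc => ?_⟩
    · rw [Finset.card_empty, zero_add] at h3
      exact h3
    · omega
  | @bot lo hi h c h' hR hlt ih =>
    obtain ⟨hn', D, h1, h2, h3, h4⟩ := ih
    obtain ⟨D₁, a1, a2, a3, a4⟩ := pay (adj := adj) h1 h3 (r := lo) (by omega)
    obtain ⟨D₂, b1, b2, b3, b4⟩ := enter (h' := h') a2 (fun x hx hm => a1 (h3 x hx hm))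
    refine ⟨hn', D₂, b2, by omega, b4, fun v hv hc => ?_⟩
    by_cases hvlo : v = lo
    · subst hvlo
      exact dom_mono b1 a4
    · exact dom_mono (a1.trans b1) (h4 v hv (by omega))
  | @top lo hi h c h' hR hle ih =>
    obtain ⟨hn', D, h1, h2, h3, h4⟩ := ih
    obtain ⟨D₁, a1, a2, a3, a4⟩ := pay (adj := adj) h1 h3 (r := hi + 1) hn'
    obtain ⟨D₂, b1, b2, b3, b4⟩ := enter (h' := h') a2 (fun x hx hm => a1 (h3 x hx hm))
    refine ⟨by omega, D₂, b2, by omega, b4, fun v hv hc => ?_⟩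
    by_cases hvhi : v = hi + 1
    · subst hvhi
      exact dom_mono b1 a4
    · exact dom_mono (a1.trans b1) (h4 v hv (by omega))

theorem stSound : StSound := by
  intro n adj K hS
  rcases Nat.eq_zero_or_pos n with rfl | hn
  · exact ⟨∅, ⟨Finset.empty_subset _, fun v hv => absurd hv (Nat.not_lt_zero v)⟩, Nat.zero_le _⟩
  · rcases hS with h0 | ⟨r, h, c, hR, hK⟩
    · omega
    · obtain ⟨hn', D, h1, h2, h3, h4⟩ := inv hn hR
      obtain ⟨D₁, a1, a2, a3, a4⟩ := pay (adj := adj) h1 h3 (r := r) hn'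
      refine ⟨D₁, ⟨a2, fun v hv => ?_⟩, by omega⟩
      by_cases hvr : v = r
      · subst hvr
        exact a4
      · exact dom_mono a1 (h4 v hv (by omega))

end Pool.Agent.K7.H64.SD
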