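import Pool.Agent.K7.H64.RDEDefs

set_option autoImplicit false

/-! Unbounded solutions of rational difference equations: the dynamics of the logarithms. -/

namespace Pool.Agent.K7.H64.RDE

/-- fifteen steps of `z_n = z_{n-1} - max (z_{n-2}, z_{n-3})` with errors -/
lemma core23 (E R : ℝ) (hR : 4000 * E ≤ R) (hR0 : 0 < R) (z : ℕ → ℝ)
    (H1 : ∀ i, z i ≤ z (i + 1) → |z (i + 3) - (z (i + 2) - z (i + 1))| ≤ E)
    (H2 : ∀ i, z (i + 1) ≤ z i → |z (i + 3) - (z (i + 2) - z i)| ≤ E)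
    (c0 : |z 2 - (z 1 - z 0)| ≤ E) (c1 : R ≤ z 1 - z 0) (c2 : R ≤ 2 * z 0 - z 1) :
    |z 17 - (z 16 - z 15)| ≤ E ∧ 2 * R ≤ z 16 - z 15 ∧ 2 * R ≤ 2 * z 15 - z 16 := by
  have a2 := abs_le.1 c0
  have a3 := abs_le.1 (show |z 3 - (z 2 - z 1)| ≤ E from H1 0 (by show z 0 ≤ z 1; linarith))
  have a4 := abs_le.1 (show |z 4 - (z 3 - z 1)| ≤ E from
    H2 1 (by show z 2 ≤ z 1; linarith [a2.1, a2.2]))
  have a5 := abs_le.1 (show |z 5 - (z 4 - z 2)| ≤ E from
    H2 2 (by show z 3 ≤ z 2; linarith [a2.1, a2.2, a3.1, a3.2]))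
  have a6 := abs_le.1 (show |z 6 - (z 5 - z 3)| ≤ E from
    H2 3 (by show z 4 ≤ z 3; linarith [a2.1, a2.2, a3.1, a3.2, a4.1, a4.2]))
  have a7 := abs_le.1 (show |z 7 - (z 6 - z 4)| ≤ E from
    H2 4 (by show z 5 ≤ z 4; linarith [a2.1, a2.2, a3.1, a3.2, a4.1, a4.2, a5.1, a5.2]))
  have a8 := abs_le.1 (show |z 8 - (z 7 - z 6)| ≤ E from
    H1 5 (by show z 5 ≤ z 6; linarith [a2.1, a2.2, a3.1, a3.2, a4.1, a4.2, a5.1, a5.2, a6.1, a6.2]))
  have a9 := abs_le.1 (show |z 9 - (z 8 - z 7)| ≤ E from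
    H1 6 (by
      show z 6 ≤ z 7
      linarith [a2.1, a2.2, a3.1, a3.2, a4.1, a4.2, a5.1, a5.2, a6.1, a6.2, a7.1, a7.2]))
  have a10 := abs_le.1 (show |z 10 - (z 9 - z 8)| ≤ E from
    H1 7 (by
      show z 7 ≤ z 8
      linarith [a2.1, a2.2, a3.1, a3.2, a4.1, a4.2, a5.1, a5.2, a6.1, a6.2, a7.1, a7.2, a8.1,
        a8.2]))
  have a11 := abs_le.1 (show |z 11 - (z 10 - z 8)| ≤ E from
    H2 8 (by
      show z 9 ≤ z 8
      linarith [a2.1, a2.2, a3.1, a3.2, a4.1, a4.2, a5.1, a5.2, a6.1, a6.2, a7.1, a7.2, a8.1,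
        a8.2, a9.1, a9.2]))
  have a12 := abs_le.1 (show |z 12 - (z 11 - z 9)| ≤ E from
    H2 9 (by
      show z 10 ≤ z 9
      linarith [a2.1, a2.2, a3.1, a3.2, a4.1, a4.2, a5.1, a5.2, a6.1, a6.2, a7.1, a7.2, a8.1,
        a8.2, a9.1, a9.2, a10.1, a10.2]))
  have a13 := abs_le.1 (show |z 13 - (z 12 - z 10)| ≤ E from
    H2 10 (by
      show z 11 ≤ z 10
      linarith [a2.1, a2.2, a3.1, a3.2, a4.1, a4.2, a5.1, a5.2, a6.1, a6.2, a7.1, a7.2, a8.1,
        a8.2, a9.1, a9.2, a10.1, a10.2, a11.1, a11.2]))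
  have a14 := abs_le.1 (show |z 14 - (z 13 - z 11)| ≤ E from
    H2 11 (by
      show z 12 ≤ z 11
      linarith [a2.1, a2.2, a3.1, a3.2, a4.1, a4.2, a5.1, a5.2, a6.1, a6.2, a7.1, a7.2, a8.1,
        a8.2, a9.1, a9.2, a10.1, a10.2, a11.1, a11.2, a12.1, a12.2]))
  have a15 := abs_le.1 (show |z 15 - (z 14 - z 13)| ≤ E from
    H1 12 (by
      show z 12 ≤ z 13
      linarith [a2.1, a2.2, a3.1, a3.2, a4.1, a4.2, a5.1, a5.2, a6.1, a6.2, a7.1, a7.2, a8.1,
        a8.2, a9.1, a9.2, a10.1, a10.2, a11.1, a11.2, a12.1, a12.2, a13.1, a13.2]))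
  have a16 := abs_le.1 (show |z 16 - (z 15 - z 14)| ≤ E from
    H1 13 (by
      show z 13 ≤ z 14
      linarith [a2.1, a2.2, a3.1, a3.2, a4.1, a4.2, a5.1, a5.2, a6.1, a6.2, a7.1, a7.2, a8.1,
        a8.2, a9.1, a9.2, a10.1, a10.2, a11.1, a11.2, a12.1, a12.2, a13.1, a13.2, a14.1, a14.2]))
  have a17 : |z 17 - (z 16 - z 15)| ≤ E :=
    H1 14 (by
      show z 14 ≤ z 15
      linarith [a2.1, a2.2, a3.1, a3.2, a4.1, a4.2, a5.1, a5.2, a6.1, a6.2, a7.1, a7.2, a8.1,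
        a8.2, a9.1, a9.2, a10.1, a10.2, a11.1, a11.2, a12.1, a12.2, a13.1, a13.2, a14.1, a14.2,
        a15.1, a15.2])
  refine ⟨a17, ?_, ?_⟩
  · linarith [a2.1, a2.2, a3.1, a3.2, a4.1, a4.2, a5.1, a5.2, a6.1, a6.2, a7.1, a7.2, a8.1,
        a8.2, a9.1, a9.2, a10.1, a10.2, a11.1, a11.2, a12.1, a12.2, a13.1, a13.2, a14.1, a14.2,
        a15.1, a15.2, a16.1, a16.2]
  · linarith [a2.1, a2.2, a3.1, a3.2, a4.1, a4.2, a5.1, a5.2, a6.1, a6.2, a7.1, a7.2, a8.1,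
        a8.2, a9.1, a9.2, a10.1, a10.2, a11.1, a11.2, a12.1, a12.2, a13.1, a13.2, a14.1, a14.2,
        a15.1, a15.2, a16.1, a16.2]

/-- nine steps of `z_n = z_{n-1} - max (z_{n-2}, z_{n-4})` with errors -/
lemma core24 (E R : ℝ) (hR : 4000 * E ≤ R) (hR0 : 0 < R) (z : ℕ → ℝ)
    (H1 : ∀ i, z i ≤ z (i + 2) → |z (i + 4) - (z (i + 3) - z (i + 2))| ≤ E)
    (H2 : ∀ i, z (i + 2) ≤ z i → |z (i + 4) - (z (i + 3) - z i)| ≤ E)
    (c0 : |z 3 - (z 2 - z 1)| ≤ E) (c1 : R ≤ z 2 - z 0) (c2 : R ≤ 2 * z 1 - z 2)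
    (c3 : R ≤ 2 * z 2 - z 1) :
    |z 12 - (z 11 - z 10)| ≤ E ∧ 3 / 2 * R ≤ z 11 - z 9 ∧ 3 / 2 * R ≤ 2 * z 10 - z 11 ∧
      3 / 2 * R ≤ 2 * z 11 - z 10 := by
  have a3 := abs_le.1 c0
  have a4 := abs_le.1 (show |z 4 - (z 3 - z 2)| ≤ E from H1 0 (by show z 0 ≤ z 2; linarith))
  have a5 := abs_le.1 (show |z 5 - (z 4 - z 1)| ≤ E from
    H2 1 (by show z 3 ≤ z 1; linarith [a3.1, a3.2]))
  have a6 := abs_le.1 (show |z 6 - (z 5 - z 2)| ≤ E from
    H2 2 (by show z 4 ≤ z 2; linarith [a3.1, a3.2, a4.1, a4.2]))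
  have a7 := abs_le.1 (show |z 7 - (z 6 - z 3)| ≤ E from
    H2 3 (by show z 5 ≤ z 3; linarith [a3.1, a3.2, a4.1, a4.2, a5.1, a5.2]))
  have a8 := abs_le.1 (show |z 8 - (z 7 - z 4)| ≤ E from
    H2 4 (by show z 6 ≤ z 4; linarith [a3.1, a3.2, a4.1, a4.2, a5.1, a5.2, a6.1, a6.2]))
  have a9 := abs_le.1 (show |z 9 - (z 8 - z 5)| ≤ E from
    H2 5 (by
      show z 7 ≤ z 5
      linarith [a3.1, a3.2, a4.1, a4.2, a5.1, a5.2, a6.1, a6.2, a7.1, a7.2]))
  have a10 := abs_le.1 (show |z 10 - (z 9 - z 8)| ≤ E from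
    H1 6 (by
      show z 6 ≤ z 8
      linarith [a3.1, a3.2, a4.1, a4.2, a5.1, a5.2, a6.1, a6.2, a7.1, a7.2, a8.1, a8.2]))
  have a11 := abs_le.1 (show |z 11 - (z 10 - z 9)| ≤ E from
    H1 7 (by
      show z 7 ≤ z 9
      linarith [a3.1, a3.2, a4.1, a4.2, a5.1, a5.2, a6.1, a6.2, a7.1, a7.2, a8.1, a8.2, a9.1,
        a9.2]))
  have a12 : |z 12 - (z 11 - z 10)| ≤ E :=
    H1 8 (by
      show z 8 ≤ z 10
      linarith [a3.1, a3.2, a4.1, a4.2, a5.1, a5.2, a6.1, a6.2, a7.1, a7.2, a8.1, a8.2, a9.1,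
        a9.2, a10.1, a10.2])
  refine ⟨a12, ?_, ?_, ?_⟩
  · linarith [a3.1, a3.2, a4.1, a4.2, a5.1, a5.2, a6.1, a6.2, a7.1, a7.2, a8.1, a8.2, a9.1,
        a9.2, a10.1, a10.2, a11.1, a11.2]
  · linarith [a3.1, a3.2, a4.1, a4.2, a5.1, a5.2, a6.1, a6.2, a7.1, a7.2, a8.1, a8.2, a9.1,
        a9.2, a10.1, a10.2, a11.1, a11.2]
  · linarith [a3.1, a3.2, a4.1, a4.2, a5.1, a5.2, a6.1, a6.2, a7.1, a7.2, a8.1, a8.2, a9.1,
        a9.2, a10.1, a10.2, a11.1, a11.2]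

/-- nine steps of `z_n = z_{n-1} - max (z_{n-2}, z_{n-3}, z_{n-4})` with errors -/
lemma core234 (E R : ℝ) (hR : 4000 * E ≤ R) (hR0 : 0 < R) (z : ℕ → ℝ)
    (H2 : ∀ i, z i ≤ z (i + 2) → z (i + 1) ≤ z (i + 2) →
      |z (i + 4) - (z (i + 3) - z (i + 2))| ≤ E)
    (H3 : ∀ i, z i ≤ z (i + 1) → z (i + 2) ≤ z (i + 1) →
      |z (i + 4) - (z (i + 3) - z (i + 1))| ≤ E)
    (H4 : ∀ i, z (i + 1) ≤ z i → z (i + 2) ≤ z i → |z (i + 4) - (z (i + 3) - z i)| ≤ E)
    (c0 : |z 3 - (z 2 - z 1)| ≤ E) (c1 : R ≤ z 2 - z 0) (c2 : R ≤ 2 * z 1 - z 2)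
    (c3 : R ≤ z 2 - z 1) :
    |z 12 - (z 11 - z 10)| ≤ E ∧ 3 / 2 * R ≤ z 11 - z 9 ∧ 3 / 2 * R ≤ 2 * z 10 - z 11 ∧
      3 / 2 * R ≤ z 11 - z 10 := by
  have a3 := abs_le.1 c0
  have a4 := abs_le.1 (show |z 4 - (z 3 - z 2)| ≤ E from
    H2 0 (by show z 0 ≤ z 2; linarith) (by show z 1 ≤ z 2; linarith))
  have a5 := abs_le.1 (show |z 5 - (z 4 - z 2)| ≤ E from
    H3 1 (by show z 1 ≤ z 2; linarith) (by show z 3 ≤ z 2; linarith [a3.1, a3.2]))
  have a6 := abs_le.1 (show |z 6 - (z 5 - z 2)| ≤ E from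
    H4 2 (by show z 3 ≤ z 2; linarith [a3.1, a3.2])
      (by show z 4 ≤ z 2; linarith [a3.1, a3.2, a4.1, a4.2]))
  have a7 := abs_le.1 (show |z 7 - (z 6 - z 3)| ≤ E from
    H4 3 (by show z 4 ≤ z 3; linarith [a3.1, a3.2, a4.1, a4.2])
      (by show z 5 ≤ z 3; linarith [a3.1, a3.2, a4.1, a4.2, a5.1, a5.2]))
  have a8 := abs_le.1 (show |z 8 - (z 7 - z 4)| ≤ E from
    H4 4 (by show z 5 ≤ z 4; linarith [a3.1, a3.2, a4.1, a4.2, a5.1, a5.2])
      (by show z 6 ≤ z 4; linarith [a3.1, a3.2, a4.1, a4.2, a5.1, a5.2, a6.1, a6.2]))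
  have a9 := abs_le.1 (show |z 9 - (z 8 - z 5)| ≤ E from
    H4 5 (by
      show z 6 ≤ z 5
      linarith [a3.1, a3.2, a4.1, a4.2, a5.1, a5.2, a6.1, a6.2]) (by
      show z 7 ≤ z 5
      linarith [a3.1, a3.2, a4.1, a4.2, a5.1, a5.2, a6.1, a6.2, a7.1, a7.2]))
  have a10 := abs_le.1 (show |z 10 - (z 9 - z 8)| ≤ E from
    H2 6 (by
      show z 6 ≤ z 8
      linarith [a3.1, a3.2, a4.1, a4.2, a5.1, a5.2, a6.1, a6.2, a7.1, a7.2, a8.1, a8.2]) (by
      show z 7 ≤ z 8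
      linarith [a3.1, a3.2, a4.1, a4.2, a5.1, a5.2, a6.1, a6.2, a7.1, a7.2, a8.1, a8.2]))
  have a11 := abs_le.1 (show |z 11 - (z 10 - z 9)| ≤ E from
    H2 7 (by
      show z 7 ≤ z 9
      linarith [a3.1, a3.2, a4.1, a4.2, a5.1, a5.2, a6.1, a6.2, a7.1, a7.2, a8.1, a8.2, a9.1,
        a9.2]) (by
      show z 8 ≤ z 9
      linarith [a3.1, a3.2, a4.1, a4.2, a5.1, a5.2, a6.1, a6.2, a7.1, a7.2, a8.1, a8.2, a9.1,
        a9.2]))
  have a12 : |z 12 - (z 11 - z 10)| ≤ E :=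
    H2 8 (by
      show z 8 ≤ z 10
      linarith [a3.1, a3.2, a4.1, a4.2, a5.1, a5.2, a6.1, a6.2, a7.1, a7.2, a8.1, a8.2, a9.1,
        a9.2, a10.1, a10.2]) (by
      show z 9 ≤ z 10
      linarith [a3.1, a3.2, a4.1, a4.2, a5.1, a5.2, a6.1, a6.2, a7.1, a7.2, a8.1, a8.2, a9.1,
        a9.2, a10.1, a10.2])
  refine ⟨a12, ?_, ?_, ?_⟩
  · linarith [a3.1, a3.2, a4.1, a4.2, a5.1, a5.2, a6.1, a6.2, a7.1, a7.2, a8.1, a8.2, a9.1,
        a9.2, a10.1, a10.2, a11.1, a11.2]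
  · linarith [a3.1, a3.2, a4.1, a4.2, a5.1, a5.2, a6.1, a6.2, a7.1, a7.2, a8.1, a8.2, a9.1,
        a9.2, a10.1, a10.2, a11.1, a11.2]
  · linarith [a3.1, a3.2, a4.1, a4.2, a5.1, a5.2, a6.1, a6.2, a7.1, a7.2, a8.1, a8.2, a9.1,
        a9.2, a10.1, a10.2, a11.1, a11.2]


/-- growing margins give an unbounded sequence -/
lemma grow (S : ℝ → ℕ → Prop) (y : ℕ → ℝ) (R0 : ℝ) (hR0 : 0 < R0) (h0 : ∃ n, S R0 n)
    (hs : ∀ R n, R0 ≤ R → S R n → ∃ n', S (3 / 2 * R) n')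
    (hb : ∀ R n, R0 ≤ R → S R n → ∃ n', R ≤ y n') : ∀ M : ℝ, ∃ n, M ≤ y n := by
  have h1 : ∀ m : ℕ, R0 ≤ R0 * (3 / 2) ^ m := fun m =>
    le_mul_of_one_le_right hR0.le (one_le_pow₀ (by norm_num))
  have h2 : ∀ m : ℕ, ∃ n, S (R0 * (3 / 2) ^ m) n := by
    intro m
    induction m with
    | zero => simpa using h0
    | succ m ih =>
      obtain ⟨n, hn⟩ := ih
      obtain ⟨n', hn'⟩ := hs _ n (h1 m) hn
      refine ⟨n', ?_⟩
      have : R0 * (3 / 2) ^ (m + 1) = 3 / 2 * (R0 * (3 / 2) ^ m) := by ring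
      rwa [this]
  intro M
  obtain ⟨m, hm⟩ := pow_unbounded_of_one_lt (M / R0) (by norm_num : (1 : ℝ) < 3 / 2)
  obtain ⟨n, hn⟩ := h2 m
  obtain ⟨n', hn'⟩ := hb _ n (h1 m) hn
  refine ⟨n', le_trans ?_ hn'⟩
  rw [div_lt_iff₀ hR0] at hm
  linarith

lemma unb23 (E R0 : ℝ) (hR : 4000 * E ≤ R0) (hR0 : 0 < R0) (y : ℕ → ℝ)
    (H1 : ∀ i, y i ≤ y (i + 1) → |y (i + 3) - (y (i + 2) - y (i + 1))| ≤ E)
    (H2 : ∀ i, y (i + 1) ≤ y i → |y (i + 3) - (y (i + 2) - y i)| ≤ E)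
    (n0 : ℕ) (c0 : |y (n0 + 2) - (y (n0 + 1) - y n0)| ≤ E) (c1 : R0 ≤ y (n0 + 1) - y n0)
    (c2 : R0 ≤ 2 * y n0 - y (n0 + 1)) : ∀ M : ℝ, ∃ n, M ≤ y n := by
  refine grow (fun R n => |y (n + 2) - (y (n + 1) - y n)| ≤ E ∧ R ≤ y (n + 1) - y n ∧
    R ≤ 2 * y n - y (n + 1)) y R0 hR0 ⟨n0, c0, c1, c2⟩ ?_ ?_
  · rintro R n hRR ⟨d0, d1, d2⟩
    obtain ⟨e0, e1, e2⟩ := core23 E R (by linarith) (by linarith) (fun i => y (n + i))
      (fun i h => H1 (n + i) h) (fun i h => H2 (n + i) h) d0 d1 d2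
    exact ⟨n + 15, e0, by
      have : 2 * R ≤ y (n + 16) - y (n + 15) := e1
      show 3 / 2 * R ≤ y (n + 15 + 1) - y (n + 15)
      show 3 / 2 * R ≤ y (n + 16) - y (n + 15)
      linarith, by
      have : 2 * R ≤ 2 * y (n + 15) - y (n + 16) := e2
      show 3 / 2 * R ≤ 2 * y (n + 15) - y (n + 16)
      linarith⟩
  · rintro R n hRR ⟨d0, d1, d2⟩
    exact ⟨n, by linarith⟩

lemma unb24 (E R0 : ℝ) (hR : 4000 * E ≤ R0) (hR0 : 0 < R0) (y : ℕ → ℝ)
    (H1 : ∀ i, y i ≤ y (i + 2) → |y (i + 4) - (y (i + 3) - y (i + 2))| ≤ E)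
    (H2 : ∀ i, y (i + 2) ≤ y i → |y (i + 4) - (y (i + 3) - y i)| ≤ E)
    (c0 : |y 3 - (y 2 - y 1)| ≤ E) (c1 : R0 ≤ y 2 - y 0)
    (c2 : R0 ≤ 2 * y 1 - y 2) (c3 : R0 ≤ 2 * y 2 - y 1) : ∀ M : ℝ, ∃ n, M ≤ y n := by
  refine grow (fun R n => |y (n + 3) - (y (n + 2) - y (n + 1))| ≤ E ∧ R ≤ y (n + 2) - y n ∧
    R ≤ 2 * y (n + 1) - y (n + 2) ∧ R ≤ 2 * y (n + 2) - y (n + 1)) y R0 hR0
    ⟨0, c0, c1, c2, c3⟩ ?_ ?_
  · rintro R n hRR ⟨d0, d1, d2, d3⟩
    obtain ⟨e0, e1, e2, e3⟩ := core24 E R (by linarith) (by linarith) (fun i => y (n + i))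
      (fun i h => H1 (n + i) h) (fun i h => H2 (n + i) h) d0 d1 d2 d3
    exact ⟨n + 9, e0, e1, e2, e3⟩
  · rintro R n hRR ⟨d0, d1, d2, d3⟩
    exact ⟨n + 1, by linarith⟩

lemma unb234 (E R0 : ℝ) (hR : 4000 * E ≤ R0) (hR0 : 0 < R0) (y : ℕ → ℝ)
    (H2 : ∀ i, y i ≤ y (i + 2) → y (i + 1) ≤ y (i + 2) →
      |y (i + 4) - (y (i + 3) - y (i + 2))| ≤ E)
    (H3 : ∀ i, y i ≤ y (i + 1) → y (i + 2) ≤ y (i + 1) →
      |y (i + 4) - (y (i + 3) - y (i + 1))| ≤ E)
    (H4 : ∀ i, y (i + 1) ≤ y i → y (i + 2) ≤ y i → |y (i + 4) - (y (i + 3) - y i)| ≤ E)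
    (c0 : |y 3 - (y 2 - y 1)| ≤ E) (c1 : R0 ≤ y 2 - y 0)
    (c2 : R0 ≤ 2 * y 1 - y 2) (c3 : R0 ≤ y 2 - y 1) : ∀ M : ℝ, ∃ n, M ≤ y n := by
  refine grow (fun R n => |y (n + 3) - (y (n + 2) - y (n + 1))| ≤ E ∧ R ≤ y (n + 2) - y n ∧
    R ≤ 2 * y (n + 1) - y (n + 2) ∧ R ≤ y (n + 2) - y (n + 1)) y R0 hR0
    ⟨0, c0, c1, c2, c3⟩ ?_ ?_
  · rintro R n hRR ⟨d0, d1, d2, d3⟩
    obtain ⟨e0, e1, e2, e3⟩ := core234 E R (by linarith) (by linarith) (fun i => y (n + i))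
      (fun i h h' => H2 (n + i) h h') (fun i h h' => H3 (n + i) h h')
      (fun i h h' => H4 (n + i) h h') d0 d1 d2 d3
    exact ⟨n + 9, e0, e1, e2, e3⟩
  · rintro R n hRR ⟨d0, d1, d2, d3⟩
    exact ⟨n + 1, by linarith⟩

/-- the logarithm of one step -/
lemma logstep (β Bj a xj S T E : ℝ) (hβ : 0 < β) (hBj : 0 < Bj) (ha : 0 < a) (hxj : 0 < xj)
    (hT : 0 < T) (h1 : Bj * xj ≤ S) (h2 : S ≤ T * xj) (hE1 : |Real.log β - Real.log Bj| ≤ E)
    (hE2 : |Real.log β - Real.log T| ≤ E) :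
    |Real.log (β * a / S) - (Real.log a - Real.log xj)| ≤ E := by
  have hS : 0 < S := lt_of_lt_of_le (mul_pos hBj hxj) h1
  have e1 : Real.log (β * a / S) = Real.log β + Real.log a - Real.log S := by
    rw [Real.log_div (by positivity) hS.ne', Real.log_mul hβ.ne' ha.ne']
  have e2 : Real.log Bj + Real.log xj ≤ Real.log S := by
    rw [← Real.log_mul hBj.ne' hxj.ne']
    exact Real.log_le_log (by positivity) h1
  have e3 : Real.log S ≤ Real.log T + Real.log xj := by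
    rw [← Real.log_mul hT.ne' hxj.ne']
    exact Real.log_le_log hS h2
  rw [e1]
  rw [abs_le] at hE1 hE2 ⊢
  constructor <;> linarith [hE1.1, hE1.2, hE2.1, hE2.2]

/-- a recursively defined sequence -/
lemma ex_seq (k : ℕ) (hk : 1 ≤ k) (init : ℕ → ℝ) (F : (ℕ → ℝ) → ℝ)
    (hF : ∀ v w : ℕ → ℝ, (∀ i < k, v i = w i) → F v = F w) :
    ∃ x : ℕ → ℝ, (∀ i < k, x i = init i) ∧ ∀ n, x (n + k) = F (fun i => x (n + i)) := by
  set step : (ℕ → ℝ) → (ℕ → ℝ) := fun v i => if i + 1 < k then v (i + 1) else F v with hstep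
  set s : ℕ → (ℕ → ℝ) := fun n => step^[n] init with hs
  have hsucc : ∀ n, s (n + 1) = step (s n) := fun n => by
    simp only [hs, Function.iterate_succ_apply']
  have key : ∀ i, i < k → ∀ n, s n i = s (n + i) 0 := by
    intro i
    induction i with
    | zero => intro _ n; rfl
    | succ i ih =>
      intro hi n
      have h1 := ih (by omega) (n + 1)
      rw [hsucc] at h1
      simp only [hstep, if_pos hi] at h1
      rw [h1]
      congr 1
      omega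
  refine ⟨fun n => s n 0, fun i hi => ?_, fun n => ?_⟩
  · have := key i hi 0
    rw [zero_add] at this
    show s i 0 = init i
    rw [← this]
    rfl
  · show s (n + k) 0 = F (fun i => s (n + i) 0)
    have h1 := key (k - 1) (by omega) (n + 1)
    have h2 : n + 1 + (k - 1) = n + k := by omega
    rw [h2, hsucc] at h1
    simp only [hstep] at h1
    rw [if_neg (by omega)] at h1
    rw [← h1]
    exact hF _ _ (fun i hi => key i hi n)


lemma lin_pos (k : ℕ) (N : Finset ℕ) (hN : N.Nonempty) (hNk : ∀ i ∈ N, i ≤ k) (c x : ℕ → ℝ)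
    (hc : IsParam N c) (n : ℕ) (hx : ∀ i < k, 0 < x (n + i)) : 0 < lin k c x n := by
  have hc0 : ∀ i, 0 ≤ c i := fun i => by
    by_cases h : i ∈ N
    · exact (hc.1 i h).le
    · exact (hc.2 i h).ge
  have hx' : ∀ i ∈ Finset.Icc 1 k, 0 < x (n + k - i) := fun i hi => by
    rw [Finset.mem_Icc] at hi
    have : n + k - i = n + (k - i) := by omega
    rw [this]
    exact hx _ (by omega)
  have hterm : ∀ i ∈ Finset.Icc 1 k, 0 ≤ c i * x (n + k - i) := fun i hi =>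
    mul_nonneg (hc0 i) (hx' i hi).le
  obtain ⟨i, hi⟩ := hN
  unfold lin
  rcases Nat.eq_zero_or_pos i with h | h
  · have h1 : 0 < c 0 := by rw [← h]; exact hc.1 i hi
    have := Finset.sum_nonneg hterm
    linarith
  · have hmem : i ∈ Finset.Icc 1 k := Finset.mem_Icc.2 ⟨h, hNk i hi⟩
    have h1 := Finset.single_le_sum hterm hmem
    have h2 : 0 < c i * x (n + k - i) := mul_pos (hc.1 i hi) (hx' i hmem)
    have := hc0 0
    linarith

lemma sol_pos (k : ℕ) (N : Finset ℕ) (hN : N.Nonempty) (hNk : ∀ i ∈ N, i ≤ k)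
    (b B x : ℕ → ℝ) (hb : IsParam N b) (hx : IsSolution k b B x)
    (h0 : ∀ i < k, 0 < x i) : ∀ n, 0 < x n := by
  intro n
  induction n using Nat.strong_induction_on with
  | _ n ih =>
    rcases lt_or_ge n k with h | h
    · exact h0 n h
    · obtain ⟨m, rfl⟩ : ∃ m, n = m + k := ⟨n - k, by omega⟩
      rw [(hx.2 m).2]
      refine div_pos (lin_pos k N hN hNk b x hb m fun i hi => ih _ (by omega)) (hx.2 m).1

lemma exists_sol (k : ℕ) (hk : 1 ≤ k) (N D : Finset ℕ) (hN : N.Nonempty) (hNk : ∀ i ∈ N, i ≤ k)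
    (hD : D.Nonempty) (hDk : ∀ i ∈ D, i ≤ k) (b B : ℕ → ℝ) (hb : IsParam N b)
    (hB : IsParam D B) (p : Fin k → ℝ) (hp : ∀ i, 0 < p i) :
    ∃ x : ℕ → ℝ, IsSolution k b B x ∧ ∀ i : Fin k, x i = p i := by
  obtain ⟨x, hx0, hx⟩ := ex_seq k hk (fun i => if h : i < k then p ⟨i, h⟩ else 0)
    (fun v => (b 0 + ∑ i ∈ Finset.Icc 1 k, b i * v (k - i)) /
      (B 0 + ∑ i ∈ Finset.Icc 1 k, B i * v (k - i))) (by
      intro v w hvw
      have h1 : ∀ c : ℕ → ℝ, ∑ i ∈ Finset.Icc 1 k, c i * v (k - i) =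
          ∑ i ∈ Finset.Icc 1 k, c i * w (k - i) := fun c =>
        Finset.sum_congr rfl fun i hi => by
          rw [Finset.mem_Icc] at hi
          rw [hvw (k - i) (by omega)]
      simp only [h1])
  have hlin : ∀ (c : ℕ → ℝ) (n : ℕ),
      c 0 + ∑ i ∈ Finset.Icc 1 k, c i * x (n + (k - i)) = lin k c x n := by
    intro c n
    unfold lin
    congr 1
    refine Finset.sum_congr rfl fun i hi => ?_
    rw [Finset.mem_Icc] at hi
    have : n + (k - i) = n + k - i := by omega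
    rw [this]
  have hx' : ∀ n, x (n + k) = lin k b x n / lin k B x n := by
    intro n
    rw [hx n, ← hlin, ← hlin]
  have hxi : ∀ i : Fin k, x i = p i := by
    intro i
    rw [hx0 i i.2, dif_pos i.2]
  have hpos : ∀ n, 0 < x n := by
    intro n
    induction n using Nat.strong_induction_on with
    | _ n ih =>
      rcases lt_or_ge n k with h | h
      · have := hxi ⟨n, h⟩
        simp only at this
        rw [this]
        exact hp _
      · obtain ⟨m, rfl⟩ : ∃ m, n = m + k := ⟨n - k, by omega⟩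
        rw [hx' m]
        exact div_pos (lin_pos k N hN hNk b x hb m fun i hi => ih _ (by omega))
          (lin_pos k D hD hDk B x hB m fun i hi => ih _ (by omega))
  exact ⟨x, ⟨fun i hi => (hpos i).le, fun n =>
    ⟨lin_pos k D hD hDk B x hB n fun i _ => hpos _, hx' n⟩⟩, hxi⟩

/-- unbounded logarithms -/
lemma unb_of_log (x : ℕ → ℝ) (hx : ∀ n, 0 < x n) (h : ∀ M : ℝ, ∃ n, M ≤ Real.log (x n)) :
    ∀ M : ℝ, ∃ n, M < x n := by
  intro M
  obtain ⟨n, hn⟩ := h M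
  refine ⟨n, ?_⟩
  have h1 := Real.log_le_sub_one_of_pos (hx n)
  linarith

lemma logs (κ E p q r : ℝ) (hκ : κ = Real.exp E) (hp : 0 < p)
    (hq : 0 < q) (hr : 0 < r) (h1 : q < κ * (p * r)) (h2 : p * r < κ * q) :
    |Real.log r - (Real.log q - Real.log p)| ≤ E := by
  have e1 : Real.log q < E + (Real.log p + Real.log r) := by
    rw [← Real.log_exp E, ← hκ, ← Real.log_mul hp.ne' hr.ne', ← Real.log_mul (by
      rw [hκ]; positivity) (by positivity)]
    exact Real.log_lt_log hq h1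
  have e2 : Real.log p + Real.log r < E + Real.log q := by
    rw [← Real.log_mul hp.ne' hr.ne']
    conv_rhs => rw [← Real.log_exp E]
    rw [← hκ, ← Real.log_mul (by rw [hκ]; positivity) hq.ne']
    exact Real.log_lt_log (by positivity) h2
  rw [abs_le]
  constructor <;> linarith


lemma lin3 (c x : ℕ → ℝ) (n : ℕ) :
    lin 3 c x n = c 0 + (c 1 * x (n + 2) + (c 2 * x (n + 1) + c 3 * x n)) := by
  unfold lin
  rw [show Finset.Icc 1 3 = {1, 2, 3} from rfl, Finset.sum_insert (by decide),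
    Finset.sum_insert (by decide), Finset.sum_singleton]
  rfl

lemma lin4 (c x : ℕ → ℝ) (n : ℕ) :
    lin 4 c x n = c 0 + (c 1 * x (n + 3) + (c 2 * x (n + 2) + (c 3 * x (n + 1) + c 4 * x n))) := by
  unfold lin
  rw [show Finset.Icc 1 4 = {1, 2, 3, 4} from rfl, Finset.sum_insert (by decide),
    Finset.sum_insert (by decide), Finset.sum_insert (by decide), Finset.sum_singleton]
  rfl

lemma log_lt1 (R p q : ℝ) (hp : 0 < p) (h : Real.exp R * p < q) :
    R + Real.log p < Real.log q := by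
  have := Real.log_lt_log (by positivity) h
  rwa [Real.log_mul (Real.exp_pos R).ne' hp.ne', Real.log_exp] at this

lemma log_lt2 (R p q : ℝ) (hp : 0 < p) (h : Real.exp R * p < q ^ 2) :
    R + Real.log p < 2 * Real.log q := by
  have := Real.log_lt_log (by positivity) h
  rw [Real.log_mul (Real.exp_pos R).ne' hp.ne', Real.log_exp, Real.log_pow] at this
  exact_mod_cast this

lemma open_pos (k : ℕ) : IsOpen {p : Fin k → ℝ | ∀ i, 0 < p i} := by
  rw [Set.ofPred_forall]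
  exact isOpen_iInter_of_finite fun i => isOpen_lt continuous_const (continuous_apply i)

/-- the error of one step -/
lemma err (β : ℝ) (A : List ℝ) : ∀ a ∈ A, |Real.log β - Real.log a| ≤
    1 + (A.map fun a => |Real.log β - Real.log a|).sum := by
  intro a ha
  have h : |Real.log β - Real.log a| ≤ (A.map fun a => |Real.log β - Real.log a|).sum := by
    refine List.single_le_sum (l := A.map fun a => |Real.log β - Real.log a|) ?_ _ ?_
    · intro y hy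
      obtain ⟨b, _, rfl⟩ := List.mem_map.1 hy
      exact abs_nonneg _
    · exact List.mem_map.2 ⟨a, ha, rfl⟩
  linarith

lemma err_one (β : ℝ) (A : List ℝ) :
    1 ≤ 1 + (A.map fun a => |Real.log β - Real.log a|).sum := by
  have : 0 ≤ (A.map fun a => |Real.log β - Real.log a|).sum := by
    refine List.sum_nonneg ?_
    intro y hy
    obtain ⟨b, _, rfl⟩ := List.mem_map.1 hy
    exact abs_nonneg _
  linarith

theorem case3_23 : OpenUnbounded 3 {1} {2, 3} := by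
  intro b B hb hB
  have hβ : 0 < b 1 := hb.1 1 (by decide)
  have hP : 0 < B 2 := hB.1 2 (by decide)
  have hQ : 0 < B 3 := hB.1 3 (by decide)
  have b0 : b 0 = 0 := hb.2 0 (by decide)
  have b2 : b 2 = 0 := hb.2 2 (by decide)
  have b3 : b 3 = 0 := hb.2 3 (by decide)
  have B0 : B 0 = 0 := hB.2 0 (by decide)
  have B1 : B 1 = 0 := hB.2 1 (by decide)
  set E : ℝ := 1 + ([B 2, B 3, B 2 + B 3].map fun a => |Real.log (b 1) - Real.log a|).sum with hE
  have hE1 : 1 ≤ E := err_one _ _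
  have hEP : |Real.log (b 1) - Real.log (B 2)| ≤ E := err _ _ _ (by simp)
  have hEQ : |Real.log (b 1) - Real.log (B 3)| ≤ E := err _ _ _ (by simp)
  have hET : |Real.log (b 1) - Real.log (B 2 + B 3)| ≤ E := err _ _ _ (by simp)
  set R : ℝ := 4000 * E with hR
  have hR0 : 0 < R := by rw [hR]; linarith
  refine ⟨{p | (∀ i, 0 < p i) ∧ Real.exp R * p 0 < p 1 ∧ Real.exp R * p 1 < p 0 ^ 2 ∧
    p 1 < Real.exp E * (p 0 * p 2) ∧ p 0 * p 2 < Real.exp E * p 1}, ?_, ?_, ?_, ?_, ?_⟩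
  · have o1 : IsOpen {p : Fin 3 → ℝ | Real.exp R * p 0 < p 1} :=
      isOpen_lt (by fun_prop) (by fun_prop)
    have o2 : IsOpen {p : Fin 3 → ℝ | Real.exp R * p 1 < p 0 ^ 2} :=
      isOpen_lt (by fun_prop) (by fun_prop)
    have o3 : IsOpen {p : Fin 3 → ℝ | p 1 < Real.exp E * (p 0 * p 2)} :=
      isOpen_lt (by fun_prop) (by fun_prop)
    have o4 : IsOpen {p : Fin 3 → ℝ | p 0 * p 2 < Real.exp E * p 1} :=
      isOpen_lt (by fun_prop) (by fun_prop)
    exact (open_pos 3).inter (o1.inter (o2.inter (o3.inter o4)))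
  · refine ⟨![Real.exp (3 * R), Real.exp (9 / 2 * R), Real.exp (3 / 2 * R)], ?_, ?_, ?_, ?_, ?_⟩
    · intro i
      fin_cases i <;> exact Real.exp_pos _
    · show Real.exp R * Real.exp (3 * R) < Real.exp (9 / 2 * R)
      rw [← Real.exp_add, Real.exp_lt_exp]
      linarith
    · show Real.exp R * Real.exp (9 / 2 * R) < Real.exp (3 * R) ^ 2
      rw [← Real.exp_add, ← Real.exp_nat_mul, Real.exp_lt_exp]
      push_cast
      linarith
    · show Real.exp (9 / 2 * R) < Real.exp E * (Real.exp (3 * R) * Real.exp (3 / 2 * R))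
      rw [← Real.exp_add, ← Real.exp_add, Real.exp_lt_exp]
      linarith
    · show Real.exp (3 * R) * Real.exp (3 / 2 * R) < Real.exp E * Real.exp (9 / 2 * R)
      rw [← Real.exp_add, ← Real.exp_add, Real.exp_lt_exp]
      linarith
  · exact fun p hp => hp.1
  · exact fun p hp => exists_sol 3 (by norm_num) {1} {2, 3} (by decide) (by decide) (by decide)
      (by decide) b B hb hB p hp.1
  · intro x hx hU
    obtain ⟨u0, u1, u2, u3, u4⟩ := hU
    have hpos : ∀ n, 0 < x n := sol_pos 3 {1} (by decide) (by decide) b B x hb hx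
      (fun i hi => u0 ⟨i, hi⟩)
    have hrec : ∀ n, x (n + 3) = b 1 * x (n + 2) / (B 2 * x (n + 1) + B 3 * x n) := by
      intro n
      rw [(hx.2 n).2, lin3, lin3, b0, b2, b3, B0, B1]
      congr 1 <;> ring
    refine unb_of_log x hpos (unb23 E R le_rfl hR0 (fun n => Real.log (x n)) ?_ ?_ 0 ?_ ?_ ?_)
    · intro i hi
      have hi' : x i ≤ x (i + 1) := (Real.log_le_log_iff (hpos _) (hpos _)).1 hi
      show |Real.log (x (i + 3)) - (Real.log (x (i + 2)) - Real.log (x (i + 1)))| ≤ E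
      rw [hrec]
      refine logstep _ (B 2) _ _ _ (B 2 + B 3) E hβ hP (hpos _) (hpos _) (by positivity) ?_ ?_
        hEP hET
      · nlinarith [mul_pos hQ (hpos i)]
      · nlinarith [mul_le_mul_of_nonneg_left hi' hQ.le]
    · intro i hi
      have hi' : x (i + 1) ≤ x i := (Real.log_le_log_iff (hpos _) (hpos _)).1 hi
      show |Real.log (x (i + 3)) - (Real.log (x (i + 2)) - Real.log (x i))| ≤ E
      rw [hrec]
      refine logstep _ (B 3) _ _ _ (B 2 + B 3) E hβ hQ (hpos _) (hpos _) (by positivity) ?_ ?_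
        hEQ hET
      · nlinarith [mul_pos hP (hpos (i + 1))]
      · nlinarith [mul_le_mul_of_nonneg_left hi' hP.le]
    · exact logs _ E (x 0) (x 1) (x 2) rfl (hpos _) (hpos _) (hpos _) u3 u4
    · have := log_lt1 R (x 0) (x 1) (hpos _) u1
      show R ≤ Real.log (x 1) - Real.log (x 0)
      linarith
    · have := log_lt2 R (x 1) (x 0) (hpos _) u2
      show R ≤ 2 * Real.log (x 0) - Real.log (x 1)
      linarith


theorem case4_23 : OpenUnbounded 4 {1} {2, 3} := by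
  intro b B hb hB
  have hβ : 0 < b 1 := hb.1 1 (by decide)
  have hP : 0 < B 2 := hB.1 2 (by decide)
  have hQ : 0 < B 3 := hB.1 3 (by decide)
  have b0 : b 0 = 0 := hb.2 0 (by decide)
  have b2 : b 2 = 0 := hb.2 2 (by decide)
  have b3 : b 3 = 0 := hb.2 3 (by decide)
  have b4 : b 4 = 0 := hb.2 4 (by decide)
  have B0 : B 0 = 0 := hB.2 0 (by decide)
  have B1 : B 1 = 0 := hB.2 1 (by decide)
  have B4 : B 4 = 0 := hB.2 4 (by decide)
  set E : ℝ := 1 + ([B 2, B 3, B 2 + B 3].map fun a => |Real.log (b 1) - Real.log a|).sum with hE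
  have hE1 : 1 ≤ E := err_one _ _
  have hEP : |Real.log (b 1) - Real.log (B 2)| ≤ E := err _ _ _ (by simp)
  have hEQ : |Real.log (b 1) - Real.log (B 3)| ≤ E := err _ _ _ (by simp)
  have hET : |Real.log (b 1) - Real.log (B 2 + B 3)| ≤ E := err _ _ _ (by simp)
  set R : ℝ := 4000 * E with hR
  have hR0 : 0 < R := by rw [hR]; linarith
  refine ⟨{p | (∀ i, 0 < p i) ∧ Real.exp R * p 1 < p 2 ∧ Real.exp R * p 2 < p 1 ^ 2 ∧
    p 2 < Real.exp E * (p 1 * p 3) ∧ p 1 * p 3 < Real.exp E * p 2}, ?_, ?_, ?_, ?_, ?_⟩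
  · have o1 : IsOpen {p : Fin 4 → ℝ | Real.exp R * p 1 < p 2} :=
      isOpen_lt (by fun_prop) (by fun_prop)
    have o2 : IsOpen {p : Fin 4 → ℝ | Real.exp R * p 2 < p 1 ^ 2} :=
      isOpen_lt (by fun_prop) (by fun_prop)
    have o3 : IsOpen {p : Fin 4 → ℝ | p 2 < Real.exp E * (p 1 * p 3)} :=
      isOpen_lt (by fun_prop) (by fun_prop)
    have o4 : IsOpen {p : Fin 4 → ℝ | p 1 * p 3 < Real.exp E * p 2} :=
      isOpen_lt (by fun_prop) (by fun_prop)
    exact (open_pos 4).inter (o1.inter (o2.inter (o3.inter o4)))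
  · refine ⟨![1, Real.exp (3 * R), Real.exp (9 / 2 * R), Real.exp (3 / 2 * R)],
      ?_, ?_, ?_, ?_, ?_⟩
    · intro i
      fin_cases i
      · exact one_pos
      all_goals exact Real.exp_pos _
    · show Real.exp R * Real.exp (3 * R) < Real.exp (9 / 2 * R)
      rw [← Real.exp_add, Real.exp_lt_exp]
      linarith
    · show Real.exp R * Real.exp (9 / 2 * R) < Real.exp (3 * R) ^ 2
      rw [← Real.exp_add, ← Real.exp_nat_mul, Real.exp_lt_exp]
      push_cast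
      linarith
    · show Real.exp (9 / 2 * R) < Real.exp E * (Real.exp (3 * R) * Real.exp (3 / 2 * R))
      rw [← Real.exp_add, ← Real.exp_add, Real.exp_lt_exp]
      linarith
    · show Real.exp (3 * R) * Real.exp (3 / 2 * R) < Real.exp E * Real.exp (9 / 2 * R)
      rw [← Real.exp_add, ← Real.exp_add, Real.exp_lt_exp]
      linarith
  · exact fun p hp => hp.1
  · exact fun p hp => exists_sol 4 (by norm_num) {1} {2, 3} (by decide) (by decide) (by decide)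
      (by decide) b B hb hB p hp.1
  · intro x hx hU
    obtain ⟨u0, u1, u2, u3, u4⟩ := hU
    have hpos : ∀ n, 0 < x n := sol_pos 4 {1} (by decide) (by decide) b B x hb hx
      (fun i hi => u0 ⟨i, hi⟩)
    have hrec : ∀ n, x (n + 4) = b 1 * x (n + 3) / (B 2 * x (n + 2) + B 3 * x (n + 1)) := by
      intro n
      rw [(hx.2 n).2, lin4, lin4, b0, b2, b3, b4, B0, B1, B4]
      congr 1 <;> ring
    have hlog : ∀ M : ℝ, ∃ n, M ≤ Real.log (x (n + 1)) := by
      refine unb23 E R le_rfl hR0 (fun n => Real.log (x (n + 1))) ?_ ?_ 0 ?_ ?_ ?_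
      · intro i hi
        have hi' : x (i + 1) ≤ x (i + 2) := (Real.log_le_log_iff (hpos _) (hpos _)).1 hi
        show |Real.log (x (i + 4)) - (Real.log (x (i + 3)) - Real.log (x (i + 2)))| ≤ E
        rw [hrec]
        refine logstep _ (B 2) _ _ _ (B 2 + B 3) E hβ hP (hpos _) (hpos _) (by positivity) ?_ ?_
          hEP hET
        · nlinarith [mul_pos hQ (hpos (i + 1))]
        · nlinarith [mul_le_mul_of_nonneg_left hi' hQ.le]
      · intro i hi
        have hi' : x (i + 2) ≤ x (i + 1) := (Real.log_le_log_iff (hpos _) (hpos _)).1 hi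
        show |Real.log (x (i + 4)) - (Real.log (x (i + 3)) - Real.log (x (i + 1)))| ≤ E
        rw [hrec]
        refine logstep _ (B 3) _ _ _ (B 2 + B 3) E hβ hQ (hpos _) (hpos _) (by positivity) ?_ ?_
          hEQ hET
        · nlinarith [mul_pos hP (hpos (i + 2))]
        · nlinarith [mul_le_mul_of_nonneg_left hi' hP.le]
      · exact logs _ E (x 1) (x 2) (x 3) rfl (hpos _) (hpos _) (hpos _) u3 u4
      · have := log_lt1 R (x 1) (x 2) (hpos _) u1
        show R ≤ Real.log (x 2) - Real.log (x 1)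
        linarith
      · have := log_lt2 R (x 2) (x 1) (hpos _) u2
        show R ≤ 2 * Real.log (x 1) - Real.log (x 2)
        linarith
    exact unb_of_log x hpos (fun M => by
      obtain ⟨n, hn⟩ := hlog M
      exact ⟨n + 1, hn⟩)

theorem case4_24 : OpenUnbounded 4 {1} {2, 4} := by
  intro b B hb hB
  have hβ : 0 < b 1 := hb.1 1 (by decide)
  have hP : 0 < B 2 := hB.1 2 (by decide)
  have hQ : 0 < B 4 := hB.1 4 (by decide)
  have b0 : b 0 = 0 := hb.2 0 (by decide)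
  have b2 : b 2 = 0 := hb.2 2 (by decide)
  have b3 : b 3 = 0 := hb.2 3 (by decide)
  have b4 : b 4 = 0 := hb.2 4 (by decide)
  have B0 : B 0 = 0 := hB.2 0 (by decide)
  have B1 : B 1 = 0 := hB.2 1 (by decide)
  have B3 : B 3 = 0 := hB.2 3 (by decide)
  set E : ℝ := 1 + ([B 2, B 4, B 2 + B 4].map fun a => |Real.log (b 1) - Real.log a|).sum with hE
  have hE1 : 1 ≤ E := err_one _ _
  have hEP : |Real.log (b 1) - Real.log (B 2)| ≤ E := err _ _ _ (by simp)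
  have hEQ : |Real.log (b 1) - Real.log (B 4)| ≤ E := err _ _ _ (by simp)
  have hET : |Real.log (b 1) - Real.log (B 2 + B 4)| ≤ E := err _ _ _ (by simp)
  set R : ℝ := 4000 * E with hR
  have hR0 : 0 < R := by rw [hR]; linarith
  refine ⟨{p | (∀ i, 0 < p i) ∧ Real.exp R * p 0 < p 2 ∧ Real.exp R * p 2 < p 1 ^ 2 ∧
    Real.exp R * p 1 < p 2 ^ 2 ∧
    p 2 < Real.exp E * (p 1 * p 3) ∧ p 1 * p 3 < Real.exp E * p 2}, ?_, ?_, ?_, ?_, ?_⟩
  · have o1 : IsOpen {p : Fin 4 → ℝ | Real.exp R * p 0 < p 2} :=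
      isOpen_lt (by fun_prop) (by fun_prop)
    have o2 : IsOpen {p : Fin 4 → ℝ | Real.exp R * p 2 < p 1 ^ 2} :=
      isOpen_lt (by fun_prop) (by fun_prop)
    have o5 : IsOpen {p : Fin 4 → ℝ | Real.exp R * p 1 < p 2 ^ 2} :=
      isOpen_lt (by fun_prop) (by fun_prop)
    have o3 : IsOpen {p : Fin 4 → ℝ | p 2 < Real.exp E * (p 1 * p 3)} :=
      isOpen_lt (by fun_prop) (by fun_prop)
    have o4 : IsOpen {p : Fin 4 → ℝ | p 1 * p 3 < Real.exp E * p 2} :=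
      isOpen_lt (by fun_prop) (by fun_prop)
    exact (open_pos 4).inter (o1.inter (o2.inter (o5.inter (o3.inter o4))))
  · refine ⟨![1, Real.exp (3 * R), Real.exp (9 / 2 * R), Real.exp (3 / 2 * R)],
      ?_, ?_, ?_, ?_, ?_, ?_⟩
    · intro i
      fin_cases i
      · exact one_pos
      all_goals exact Real.exp_pos _
    · show Real.exp R * 1 < Real.exp (9 / 2 * R)
      rw [mul_one, Real.exp_lt_exp]
      linarith
    · show Real.exp R * Real.exp (9 / 2 * R) < Real.exp (3 * R) ^ 2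
      rw [← Real.exp_add, ← Real.exp_nat_mul, Real.exp_lt_exp]
      push_cast
      linarith
    · show Real.exp R * Real.exp (3 * R) < Real.exp (9 / 2 * R) ^ 2
      rw [← Real.exp_add, ← Real.exp_nat_mul, Real.exp_lt_exp]
      push_cast
      linarith
    · show Real.exp (9 / 2 * R) < Real.exp E * (Real.exp (3 * R) * Real.exp (3 / 2 * R))
      rw [← Real.exp_add, ← Real.exp_add, Real.exp_lt_exp]
      linarith
    · show Real.exp (3 * R) * Real.exp (3 / 2 * R) < Real.exp E * Real.exp (9 / 2 * R)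
      rw [← Real.exp_add, ← Real.exp_add, Real.exp_lt_exp]
      linarith
  · exact fun p hp => hp.1
  · exact fun p hp => exists_sol 4 (by norm_num) {1} {2, 4} (by decide) (by decide) (by decide)
      (by decide) b B hb hB p hp.1
  · intro x hx hU
    obtain ⟨u0, u1, u2, u5, u3, u4⟩ := hU
    have hpos : ∀ n, 0 < x n := sol_pos 4 {1} (by decide) (by decide) b B x hb hx
      (fun i hi => u0 ⟨i, hi⟩)
    have hrec : ∀ n, x (n + 4) = b 1 * x (n + 3) / (B 2 * x (n + 2) + B 4 * x n) := by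
      intro n
      rw [(hx.2 n).2, lin4, lin4, b0, b2, b3, b4, B0, B1, B3]
      congr 1 <;> ring
    refine unb_of_log x hpos (unb24 E R le_rfl hR0 (fun n => Real.log (x n)) ?_ ?_ ?_ ?_ ?_ ?_)
    · intro i hi
      have hi' : x i ≤ x (i + 2) := (Real.log_le_log_iff (hpos _) (hpos _)).1 hi
      show |Real.log (x (i + 4)) - (Real.log (x (i + 3)) - Real.log (x (i + 2)))| ≤ E
      rw [hrec]
      refine logstep _ (B 2) _ _ _ (B 2 + B 4) E hβ hP (hpos _) (hpos _) (by positivity) ?_ ?_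
        hEP hET
      · nlinarith [mul_pos hQ (hpos i)]
      · nlinarith [mul_le_mul_of_nonneg_left hi' hQ.le]
    · intro i hi
      have hi' : x (i + 2) ≤ x i := (Real.log_le_log_iff (hpos _) (hpos _)).1 hi
      show |Real.log (x (i + 4)) - (Real.log (x (i + 3)) - Real.log (x i))| ≤ E
      rw [hrec]
      refine logstep _ (B 4) _ _ _ (B 2 + B 4) E hβ hQ (hpos _) (hpos _) (by positivity) ?_ ?_
        hEQ hET
      · nlinarith [mul_pos hP (hpos (i + 2))]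
      · nlinarith [mul_le_mul_of_nonneg_left hi' hP.le]
    · exact logs _ E (x 1) (x 2) (x 3) rfl (hpos _) (hpos _) (hpos _) u3 u4
    · have := log_lt1 R (x 0) (x 2) (hpos _) u1
      show R ≤ Real.log (x 2) - Real.log (x 0)
      linarith
    · have := log_lt2 R (x 2) (x 1) (hpos _) u2
      show R ≤ 2 * Real.log (x 1) - Real.log (x 2)
      linarith
    · have := log_lt2 R (x 1) (x 2) (hpos _) u5
      show R ≤ 2 * Real.log (x 2) - Real.log (x 1)
      linarith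

theorem case4_234 : OpenUnbounded 4 {1} {2, 3, 4} := by
  intro b B hb hB
  have hβ : 0 < b 1 := hb.1 1 (by decide)
  have hP : 0 < B 2 := hB.1 2 (by decide)
  have hQ : 0 < B 3 := hB.1 3 (by decide)
  have hW : 0 < B 4 := hB.1 4 (by decide)
  have b0 : b 0 = 0 := hb.2 0 (by decide)
  have b2 : b 2 = 0 := hb.2 2 (by decide)
  have b3 : b 3 = 0 := hb.2 3 (by decide)
  have b4 : b 4 = 0 := hb.2 4 (by decide)
  have B0 : B 0 = 0 := hB.2 0 (by decide)
  have B1 : B 1 = 0 := hB.2 1 (by decide)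
  set E : ℝ := 1 + ([B 2, B 3, B 4, B 2 + B 3 + B 4].map
    fun a => |Real.log (b 1) - Real.log a|).sum with hE
  have hE1 : 1 ≤ E := err_one _ _
  have hEP : |Real.log (b 1) - Real.log (B 2)| ≤ E := err _ _ _ (by simp)
  have hEQ : |Real.log (b 1) - Real.log (B 3)| ≤ E := err _ _ _ (by simp)
  have hEW : |Real.log (b 1) - Real.log (B 4)| ≤ E := err _ _ _ (by simp)
  have hET : |Real.log (b 1) - Real.log (B 2 + B 3 + B 4)| ≤ E := err _ _ _ (by simp)
  set R : ℝ := 4000 * E with hR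
  have hR0 : 0 < R := by rw [hR]; linarith
  refine ⟨{p | (∀ i, 0 < p i) ∧ Real.exp R * p 0 < p 2 ∧ Real.exp R * p 2 < p 1 ^ 2 ∧
    Real.exp R * p 1 < p 2 ∧
    p 2 < Real.exp E * (p 1 * p 3) ∧ p 1 * p 3 < Real.exp E * p 2}, ?_, ?_, ?_, ?_, ?_⟩
  · have o1 : IsOpen {p : Fin 4 → ℝ | Real.exp R * p 0 < p 2} :=
      isOpen_lt (by fun_prop) (by fun_prop)
    have o2 : IsOpen {p : Fin 4 → ℝ | Real.exp R * p 2 < p 1 ^ 2} :=
      isOpen_lt (by fun_prop) (by fun_prop)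
    have o5 : IsOpen {p : Fin 4 → ℝ | Real.exp R * p 1 < p 2} :=
      isOpen_lt (by fun_prop) (by fun_prop)
    have o3 : IsOpen {p : Fin 4 → ℝ | p 2 < Real.exp E * (p 1 * p 3)} :=
      isOpen_lt (by fun_prop) (by fun_prop)
    have o4 : IsOpen {p : Fin 4 → ℝ | p 1 * p 3 < Real.exp E * p 2} :=
      isOpen_lt (by fun_prop) (by fun_prop)
    exact (open_pos 4).inter (o1.inter (o2.inter (o5.inter (o3.inter o4))))
  · refine ⟨![1, Real.exp (3 * R), Real.exp (9 / 2 * R), Real.exp (3 / 2 * R)],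
      ?_, ?_, ?_, ?_, ?_, ?_⟩
    · intro i
      fin_cases i
      · exact one_pos
      all_goals exact Real.exp_pos _
    · show Real.exp R * 1 < Real.exp (9 / 2 * R)
      rw [mul_one, Real.exp_lt_exp]
      linarith
    · show Real.exp R * Real.exp (9 / 2 * R) < Real.exp (3 * R) ^ 2
      rw [← Real.exp_add, ← Real.exp_nat_mul, Real.exp_lt_exp]
      push_cast
      linarith
    · show Real.exp R * Real.exp (3 * R) < Real.exp (9 / 2 * R)
      rw [← Real.exp_add, Real.exp_lt_exp]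
      linarith
    · show Real.exp (9 / 2 * R) < Real.exp E * (Real.exp (3 * R) * Real.exp (3 / 2 * R))
      rw [← Real.exp_add, ← Real.exp_add, Real.exp_lt_exp]
      linarith
    · show Real.exp (3 * R) * Real.exp (3 / 2 * R) < Real.exp E * Real.exp (9 / 2 * R)
      rw [← Real.exp_add, ← Real.exp_add, Real.exp_lt_exp]
      linarith
  · exact fun p hp => hp.1
  · exact fun p hp => exists_sol 4 (by norm_num) {1} {2, 3, 4} (by decide) (by decide)
      (by decide) (by decide) b B hb hB p hp.1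
  · intro x hx hU
    obtain ⟨u0, u1, u2, u5, u3, u4⟩ := hU
    have hpos : ∀ n, 0 < x n := sol_pos 4 {1} (by decide) (by decide) b B x hb hx
      (fun i hi => u0 ⟨i, hi⟩)
    have hrec : ∀ n, x (n + 4) =
        b 1 * x (n + 3) / (B 2 * x (n + 2) + B 3 * x (n + 1) + B 4 * x n) := by
      intro n
      rw [(hx.2 n).2, lin4, lin4, b0, b2, b3, b4, B0, B1]
      congr 1 <;> ring
    refine unb_of_log x hpos (unb234 E R le_rfl hR0 (fun n => Real.log (x n))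
      ?_ ?_ ?_ ?_ ?_ ?_ ?_)
    · intro i hi hj
      have hi' : x i ≤ x (i + 2) := (Real.log_le_log_iff (hpos _) (hpos _)).1 hi
      have hj' : x (i + 1) ≤ x (i + 2) := (Real.log_le_log_iff (hpos _) (hpos _)).1 hj
      show |Real.log (x (i + 4)) - (Real.log (x (i + 3)) - Real.log (x (i + 2)))| ≤ E
      rw [hrec]
      refine logstep _ (B 2) _ _ _ (B 2 + B 3 + B 4) E hβ hP (hpos _) (hpos _) (by positivity)
        ?_ ?_ hEP hET
      · nlinarith [mul_pos hW (hpos i), mul_pos hQ (hpos (i + 1))]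
      · nlinarith [mul_le_mul_of_nonneg_left hi' hW.le, mul_le_mul_of_nonneg_left hj' hQ.le]
    · intro i hi hj
      have hi' : x i ≤ x (i + 1) := (Real.log_le_log_iff (hpos _) (hpos _)).1 hi
      have hj' : x (i + 2) ≤ x (i + 1) := (Real.log_le_log_iff (hpos _) (hpos _)).1 hj
      show |Real.log (x (i + 4)) - (Real.log (x (i + 3)) - Real.log (x (i + 1)))| ≤ E
      rw [hrec]
      refine logstep _ (B 3) _ _ _ (B 2 + B 3 + B 4) E hβ hQ (hpos _) (hpos _) (by positivity)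
        ?_ ?_ hEQ hET
      · nlinarith [mul_pos hW (hpos i), mul_pos hP (hpos (i + 2))]
      · nlinarith [mul_le_mul_of_nonneg_left hi' hW.le, mul_le_mul_of_nonneg_left hj' hP.le]
    · intro i hi hj
      have hi' : x (i + 1) ≤ x i := (Real.log_le_log_iff (hpos _) (hpos _)).1 hi
      have hj' : x (i + 2) ≤ x i := (Real.log_le_log_iff (hpos _) (hpos _)).1 hj
      show |Real.log (x (i + 4)) - (Real.log (x (i + 3)) - Real.log (x i))| ≤ E
      rw [hrec]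
      refine logstep _ (B 4) _ _ _ (B 2 + B 3 + B 4) E hβ hW (hpos _) (hpos _) (by positivity)
        ?_ ?_ hEW hET
      · nlinarith [mul_pos hQ (hpos (i + 1)), mul_pos hP (hpos (i + 2))]
      · nlinarith [mul_le_mul_of_nonneg_left hi' hQ.le, mul_le_mul_of_nonneg_left hj' hP.le]
    · exact logs _ E (x 1) (x 2) (x 3) rfl (hpos _) (hpos _) (hpos _) u3 u4
    · have := log_lt1 R (x 0) (x 2) (hpos _) u1
      show R ≤ Real.log (x 2) - Real.log (x 0)
      linarith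
    · have := log_lt2 R (x 2) (x 1) (hpos _) u2
      show R ≤ 2 * Real.log (x 1) - Real.log (x 2)
      linarith
    · have := log_lt1 R (x 1) (x 2) (hpos _) u5
      show R ≤ Real.log (x 2) - Real.log (x 1)
      linarith

/-- a case with unbounded solutions is not ESB -/
theorem not_esb (k : ℕ) (N D : Finset ℕ) (h : OpenUnbounded k N D) : ¬ ESB k N D := by
  classical
  intro hE
  have hpar : ∀ A : Finset ℕ, IsParam A (fun i => if i ∈ A then (1 : ℝ) else 0) := fun A =>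
    ⟨fun i hi => by simp [hi], fun i hi => by simp [hi]⟩
  obtain ⟨U, _, ⟨p, hp⟩, _, h2, h3⟩ := h _ _ (hpar N) (hpar D)
  obtain ⟨x, hx, hxp⟩ := h2 p hp
  obtain ⟨M, hM⟩ := hE _ _ (hpar N) (hpar D) x hx
  obtain ⟨n, hn⟩ := h3 x hx (by
    have : (fun i : Fin k => x i) = p := funext hxp
    rw [this]
    exact hp) M
  linarith [hM n]

end Pool.Agent.K7.H64.RDE
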