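import Mathlib

/-! Definitions for MP_5c7d49_an (boundedness of rational difference equations). -/

set_option autoImplicit false

namespace Pool.Agent.K7.H64.RDE

/-- `c 0 + c 1 x_{m-1} + ... + c k x_{m-k}` at the place `m = n + k` -/
noncomputable def lin (k : ℕ) (c x : ℕ → ℝ) (n : ℕ) : ℝ :=
  c 0 + ∑ i ∈ Finset.Icc 1 k, c i * x (n + k - i)

/-- `x` is a solution of the equation with the numerator `b` and the denominator `B`; `x 0, ...,
x (k - 1)` are the initial values -/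
def IsSolution (k : ℕ) (b B x : ℕ → ℝ) : Prop :=
  (∀ i < k, 0 ≤ x i) ∧ ∀ n, 0 < lin k B x n ∧ x (n + k) = lin k b x n / lin k B x n

/-- the parameters of `N` are positive, the others are zero -/
def IsParam (N : Finset ℕ) (c : ℕ → ℝ) : Prop := (∀ i ∈ N, 0 < c i) ∧ ∀ i, i ∉ N → c i = 0

/-- the special case `(N, D)` is ESB -/
def ESB (k : ℕ) (N D : Finset ℕ) : Prop := ∀ b B : ℕ → ℝ, IsParam N b → IsParam D B →
  ∀ x : ℕ → ℝ, IsSolution k b B x → ∃ M : ℝ, ∀ n, x n ≤ M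

/-- for all parameters there is a nonempty open set of positive initial values all of whose
solutions are unbounded -/
def OpenUnbounded (k : ℕ) (N D : Finset ℕ) : Prop := ∀ b B : ℕ → ℝ, IsParam N b → IsParam D B →
  ∃ U : Set (Fin k → ℝ), IsOpen U ∧ U.Nonempty ∧ (∀ p ∈ U, ∀ i, 0 < p i) ∧
    (∀ p ∈ U, ∃ x : ℕ → ℝ, IsSolution k b B x ∧ ∀ i : Fin k, x i = p i) ∧
    ∀ x : ℕ → ℝ, IsSolution k b B x → (fun i : Fin k => x i) ∈ U → ∀ M : ℝ, ∃ n, M < x n

end Pool.Agent.K7.H64.RDE
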