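import Pool.Agent.K7.H81.RT.Stm

set_option autoImplicit false

/-! Project RT, job PIG: the pigeonhole argument. -/

namespace Pool.Agent.K7.H64.RTPIG

open Pool.Agent.K7.H81.RT

/-- two letters whose intervals contain the same point are equal -/
lemma letter_unique {d : ℕ} {a : Fin (d + 1) → ℝ} (ha : StrictMono a) (c c' : Fin d) (s : ℝ)
    (h1 : a c.castSucc ≤ s) (h2 : s < a c.succ) (h3 : a c'.castSucc ≤ s) (h4 : s < a c'.succ) :
    c = c' := by
  rcases lt_trichotomy c c' with h | h | h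
  · exfalso
    have : a c.succ ≤ a c'.castSucc := ha.monotone (Fin.succ_le_castSucc_iff.2 h)
    linarith
  · exact h
  · exfalso
    have : a c'.succ ≤ a c.castSucc := ha.monotone (Fin.succ_le_castSucc_iff.2 h)
    linarith

open Classical in
/-- the point with `T^[k] t = a (i + 1)` -/
noncomputable def gg {d : ℕ} (a : Fin (d + 1) → ℝ) (T : ℝ → ℝ) (p : ℕ × Fin (d - 1)) : ℝ :=
  if h : ∃ t : ℝ, t ∈ Set.Ico (0 : ℝ) 1 ∧ T^[p.1] t = a ⟨p.2 + 1, by have := p.2.2; omega⟩
  then h.choose else 0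

open Classical in
/-- the cut points of the iterates -/
noncomputable def PP {d : ℕ} (a : Fin (d + 1) → ℝ) (T : ℝ → ℝ) (n : ℕ) : Finset ℝ :=
  (Finset.range n ×ˢ (Finset.univ : Finset (Fin (d - 1)))).image (gg a T)

lemma card_PP {d : ℕ} (a : Fin (d + 1) → ℝ) (T : ℝ → ℝ) (n : ℕ) :
    (PP a T n).card ≤ (d - 1) * n := by
  classical
  unfold PP
  refine Finset.card_image_le.trans ?_
  rw [Finset.card_product, Finset.card_range, Finset.card_univ, Fintype.card_fin, mul_comm]

lemma mem_PP {d : ℕ} {a : Fin (d + 1) → ℝ} {T : ℝ → ℝ}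
    (hT : Set.BijOn T (Set.Ico 0 1) (Set.Ico 0 1)) (n k : ℕ) (hk : k < n) (i : Fin (d + 1))
    (hi0 : i ≠ 0) (hi1 : i ≠ Fin.last d) (t : ℝ) (ht : t ∈ Set.Ico (0 : ℝ) 1)
    (h : T^[k] t = a i) : t ∈ PP a T n := by
  classical
  have hi2 : 0 < (i : ℕ) := Nat.pos_of_ne_zero (fun h0 => hi0 (Fin.ext h0))
  have hi3 : (i : ℕ) < d := by
    have h5 := i.2
    have h6 : (i : ℕ) ≠ d := fun h0 => hi1 (Fin.ext h0)
    omega
  unfold PP
  rw [Finset.mem_image]
  refine ⟨(k, ⟨(i : ℕ) - 1, by omega⟩), Finset.mem_product.2 ⟨Finset.mem_range.2 hk,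
    Finset.mem_univ _⟩, ?_⟩
  have hii : (⟨(i : ℕ) - 1 + 1, by omega⟩ : Fin (d + 1)) = i := Fin.ext (by simp; omega)
  have hex : ∃ t : ℝ, t ∈ Set.Ico (0 : ℝ) 1 ∧
      T^[k] t = a ⟨(i : ℕ) - 1 + 1, by omega⟩ := ⟨t, ht, by rw [hii]; exact h⟩
  unfold gg
  have hinj : Set.InjOn T^[k] (Set.Ico (0 : ℝ) 1) := hT.injOn.iterate hT.mapsTo k
  rw [dif_pos hex]
  have hs := hex.choose_spec
  exact hinj hs.1 ht (by rw [hs.2, hii, h])

theorem pig : StPig := by
  classical
  intro d u hd hu n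
  obtain ⟨a, π, T, x, hI, hx0, hx1, hc⟩ := hu
  have hx : x ∈ Set.Ico (0 : ℝ) 1 := ⟨hx0, hx1⟩
  have hmaps : ∀ k, Set.MapsTo T^[k] (Set.Ico (0 : ℝ) 1) (Set.Ico (0 : ℝ) 1) :=
    fun k => hI.bij.mapsTo.iterate k
  have hxi : ∀ i, T^[i] x ∈ Set.Ico (0 : ℝ) 1 := fun i => hmaps i hx
  -- the main claim
  have key : ∀ i j : ℕ, T^[i] x ≤ T^[j] x →
      (∀ p ∈ PP a T n, ¬ (T^[i] x < p ∧ p ≤ T^[j] x)) → ∀ k < n, u (i + k) = u (j + k) := by
    intro i j hij hP
    set y := T^[i] x with hy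
    set z := T^[j] x with hz
    have hy1 : y ∈ Set.Ico (0 : ℝ) 1 := hxi i
    have hz1 : z ∈ Set.Ico (0 : ℝ) 1 := hxi j
    have hyk : ∀ k, T^[k] y = T^[i + k] x := fun k => by
      rw [hy, ← Function.iterate_add_apply, add_comm]
    have hzk : ∀ k, T^[k] z = T^[j + k] x := fun k => by
      rw [hz, ← Function.iterate_add_apply, add_comm]
    have step : ∀ k < n, ∀ τ : ℝ, (∀ t, y ≤ t → t ≤ z → T^[k] t = t + τ) →
        u (i + k) = u (j + k) ∧ T^[k] z < a (u (i + k)).succ := by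
      intro k hk τ hτ
      have h1 := hc (i + k)
      have h2 := hc (j + k)
      rw [← hyk] at h1
      rw [← hzk] at h2
      have h3 : T^[k] z < a (u (i + k)).succ := by
        by_contra hcon
        push Not at hcon
        set b := a (u (i + k)).succ with hb
        have e1 : T^[k] y = y + τ := hτ y le_rfl hij
        have e2 : T^[k] z = z + τ := hτ z hij le_rfl
        have h4 : y < b - τ := by linarith [h1.2]
        have h5 : b - τ ≤ z := by linarith
        have h6 : T^[k] (b - τ) = b := by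
          rw [hτ _ h4.le h5]
          ring
        refine hP (b - τ) ?_ ⟨h4, h5⟩
        refine mem_PP hI.bij n k hk (u (i + k)).succ (Fin.succ_ne_zero _) ?_ _
          ⟨by linarith [hy1.1], by linarith [hz1.2]⟩ h6
        intro hlast
        have h7 : b = 1 := by rw [hb, hlast, hI.one]
        have h8 : T^[k] z < 1 := (hmaps k hz1).2
        linarith
      refine ⟨?_, h3⟩
      have e1 : T^[k] y = y + τ := hτ y le_rfl hij
      have e2 : T^[k] z = z + τ := hτ z hij le_rfl
      exact letter_unique hI.mono _ _ (T^[k] z) (by linarith [h1.1]) h3 h2.1 h2.2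
    have htr : ∀ k ≤ n, ∃ τ : ℝ, ∀ t, y ≤ t → t ≤ z → T^[k] t = t + τ := by
      intro k
      induction k with
      | zero => exact fun _ => ⟨0, fun t _ _ => by simp⟩
      | succ k ih =>
        intro hk
        obtain ⟨τ, hτ⟩ := ih (by omega)
        obtain ⟨_, h3⟩ := step k (by omega) τ hτ
        obtain ⟨σ, hσ⟩ := hI.trans (u (i + k))
        refine ⟨τ + σ, fun t ht1 ht2 => ?_⟩
        have h1 := hc (i + k)
        rw [← hyk] at h1
        have e1 : T^[k] y = y + τ := hτ y le_rfl hij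
        have e2 : T^[k] z = z + τ := hτ z hij le_rfl
        rw [Function.iterate_succ_apply', hτ t ht1 ht2, hσ _ (by linarith [h1.1]) (by linarith)]
        ring
    intro k hk
    obtain ⟨τ, hτ⟩ := htr k hk.le
    exact (step k hk τ hτ).1
  -- pigeonhole
  set f : ℕ → ℕ := fun i => ((PP a T n).filter fun p => p ≤ T^[i] x).card with hf
  have hmap : ∀ i ∈ Finset.range ((d - 1) * n + 2), f i ∈ Finset.range ((d - 1) * n + 1) := by
    intro i _
    rw [Finset.mem_range]
    have h1 : f i ≤ (PP a T n).card := Finset.card_filter_le _ _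
    have h2 := card_PP a T n
    omega
  obtain ⟨i, hi, j, hj, hne, hfe⟩ := Finset.exists_ne_map_eq_of_card_lt_of_maps_to
    (by rw [Finset.card_range, Finset.card_range]; omega) hmap
  rw [Finset.mem_range] at hi hj
  have hno : ∀ i j : ℕ, f i = f j → T^[i] x ≤ T^[j] x →
      ∀ p ∈ PP a T n, ¬ (T^[i] x < p ∧ p ≤ T^[j] x) := by
    intro i j hfe hle p hp hpp
    have hsub : (PP a T n).filter (fun p => p ≤ T^[i] x) ⊆
        (PP a T n).filter (fun p => p ≤ T^[j] x) := by
      intro q hq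
      rw [Finset.mem_filter] at hq ⊢
      exact ⟨hq.1, hq.2.trans hle⟩
    have heq := Finset.eq_of_subset_of_card_le hsub hfe.ge
    have : p ∈ (PP a T n).filter (fun p => p ≤ T^[j] x) := Finset.mem_filter.2 ⟨hp, hpp.2⟩
    rw [← heq, Finset.mem_filter] at this
    linarith [this.2, hpp.1]
  have hall : ∀ k < n, u (i + k) = u (j + k) := by
    rcases le_total (T^[i] x) (T^[j] x) with h | h
    · exact key i j h (hno i j hfe h)
    · intro k hk
      exact (key j i h (hno j i hfe.symm h) k hk).symm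
  rcases lt_or_gt_of_ne hne with h | h
  · exact ⟨i, j, h, by omega, hall⟩
  · exact ⟨j, i, h, by omega, fun k hk => (hall k hk).symm⟩

end Pool.Agent.K7.H64.RTPIG
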